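import Pool.Agent.U36.TS.Stm

set_option autoImplicit false

/-! Package FROB of project TS (helper36), by helper491. -/

namespace Pool.Agent.U36.TS

theorem frob_aux_pow {M : Type} [Field M] (σ : M ≃+* M) (y : M) (i j : ℕ) :
    (σ ^ (i + j)) y = (σ ^ i) ((σ ^ j) y) := by
  rw [pow_add]
  rfl

theorem frob_aux_orbit {M : Type} [Field M] (σ : M ≃+* M) {n : ℕ} (hn : 0 < n) {z y : M}
    (hy : y ^ n = z) (hz : σ z = z) : ∃ f : ℕ, 0 < f ∧ (σ ^ f) y = y := by
  classical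
  have hfix : ∀ i : ℕ, (σ ^ i) z = z := by
    intro i
    induction i with
    | zero => rw [pow_zero]; rfl
    | succ i ih => rw [frob_aux_pow, pow_one, hz, ih]
  have hmem : ∀ i : ℕ, (σ ^ i) y ∈ (Polynomial.nthRoots n z).toFinset := by
    intro i
    rw [Multiset.mem_toFinset, Polynomial.mem_nthRoots hn, ← map_pow, hy, hfix]
  obtain ⟨i, j, hij, h⟩ := Finite.exists_ne_map_eq_of_infinite
    (fun i : ℕ => (⟨(σ ^ i) y, hmem i⟩ : {x // x ∈ (Polynomial.nthRoots n z).toFinset}))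
  have h1 : (σ ^ i) y = (σ ^ j) y := congrArg Subtype.val h
  have key : ∀ i j : ℕ, i < j → (σ ^ i) y = (σ ^ j) y → ∃ f : ℕ, 0 < f ∧ (σ ^ f) y = y := by
    intro i j hij h
    refine ⟨j - i, by omega, ?_⟩
    apply (σ ^ i).injective
    rw [← frob_aux_pow, h]
    congr 2
    omega
  rcases lt_or_gt_of_ne hij with h2 | h2
  · exact key i j h2 h1
  · exact key j i h2 h1.symm

theorem frob_aux_mul {M : Type} [Field M] (σ : M ≃+* M) {y : M} {f : ℕ} (h : (σ ^ f) y = y)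
    (g : ℕ) : (σ ^ (f * g)) y = y := by
  induction g with
  | zero => rw [mul_zero, pow_zero]; rfl
  | succ g ih => rw [Nat.mul_succ, frob_aux_pow, h, ih]

theorem t_FROB : S_FROB := by
  intro M _ l q th T Ph U hT m k z y hz hy hPz
  have hl : 0 < l := hT.prime.pos
  obtain ⟨f1, h1, h2⟩ := frob_aux_orbit Ph (pow_pos hl m) hy hPz
  obtain ⟨f2, h3, h4⟩ := frob_aux_orbit Ph (pow_pos hl k) (z := 1) (y := th k)
    ((hT.prim k).pow_eq_one) (map_one Ph)
  refine ⟨f1 * f2, Nat.mul_pos h1 h3, frob_aux_mul Ph h2 f2, ?_⟩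
  have h5 : ∀ f : ℕ, (Ph ^ f) (th k) = th k ^ q ^ f := by
    intro f
    induction f with
    | zero => rw [pow_zero, pow_zero, pow_one]; rfl
    | succ f ih => rw [frob_aux_pow, pow_one, hT.Ph_pow, map_pow, ih, ← pow_mul, pow_succ]
  have h6 : (Ph ^ (f1 * f2)) (th k) = th k := by
    rw [mul_comm]
    exact frob_aux_mul Ph h4 f1
  rw [h5] at h6
  have h7 : 1 ≤ q ^ (f1 * f2) := Nat.one_le_pow _ _ (by have := hT.two; omega)
  have h8 : th k ^ (q ^ (f1 * f2) - 1) = 1 := by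
    have h9 : th k ≠ 0 := (hT.prim k).ne_zero (pow_pos hl k).ne'
    apply mul_right_cancel₀ h9
    rw [← pow_succ, Nat.sub_add_cancel h7, h6, one_mul]
  exact (hT.prim k).dvd_of_pow_eq_one _ h8

end Pool.Agent.U36.TS
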